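import Pool.Agent.Lib.UMB.S1.Eval

set_option autoImplicit false

/-!
# UMB, section 1: the volume density, the master identity in divergence form
-/

open Filter Topology Set
open scoped ContDiff

namespace UMB

open Pool.Agent.Lib.PenroseSph (E3 Tens pd chr ric scal trg normSqg divg energy momentum)

/-- The determinant. -/
noncomputable def GA.det {R : Type*} [CommRing R] [Algebra ℝ R] (S : GA R) : R :=
  S.g 0 0 * S.g 1 1 * S.g 2 2 - S.g 0 0 * S.g 1 2 * S.g 2 1 - S.g 0 1 * S.g 1 0 * S.g 2 2 + S.g 0 1 * S.g 1 2 * S.g 2 0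
    + S.g 0 2 * S.g 1 0 * S.g 2 1 - S.g 0 2 * S.g 1 1 * S.g 2 0

theorem GA.D_det {R : Type*} [CommRing R] [Algebra ℝ R] (S : GA R) (a : Fin 3) :
    S.D a S.det = 2 * S.det * ∑ c, S.Ga c c a := by
  have h : ∀ c, S.Ga c c a = S.Ga c a c := fun c => S.Ga_symm c c a
  simp only [h]
  unfold GA.det
  simp only [map_sub, map_add, Derivation.leibniz, smul_eq_mul, S.Dg, Fin.sum_univ_three, S.gsymm 1 0, S.gsymm 2 0,
    S.gsymm 2 1]
  ring

variable {g : Tens} {U : Set E3} (h : MetOn g U)

theorem val_det (x : U) : h.ga.det.1 x = (g x).det := by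
  rw [Matrix.det_fin_three]
  rfl

include h in
theorem MetOn.vol_pos {x : E3} (hx : x ∈ U) : 0 < vol g x := Real.sqrt_pos.2 (h.det_pos hx)

include h in
theorem MetOn.vol_smooth : ContDiffOn ℝ ∞ (vol g) U := h.det_smooth.sqrt fun _ hx => (h.det_pos hx).ne'

include h in
theorem MetOn.pd_vol (a : Fin 3) {x : E3} (hx : x ∈ U) : pd a (vol g) x = vol g x * ∑ c, chr g c c a x := by
  have hv := h.vol_smooth
  have h1 : pd a (fun y => (g y).det) x = 2 * (g x).det * ∑ c, chr g c c a x := by
    have := congrArg (fun f : SmR U => f.1 ⟨x, hx⟩) (h.ga.D_det a)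
    simp only [val_mul, val_sum, val_Ga, val_det] at this
    rw [val_D h a _ (fun y => (g y).det) (val_det h)] at this
    exact this
  have hd : DifferentiableAt ℝ (vol g) x := (hv.contDiffAt (h.isOpen.mem_nhds hx)).differentiableAt (by simp)
  have h2 : pd a (fun y => (g y).det) x = vol g x * pd a (vol g) x + vol g x * pd a (vol g) x := by
    have e : (fun y => (g y).det) =ᶠ[𝓝 x] fun y => vol g y * vol g y := by
      filter_upwards [h.isOpen.mem_nhds hx] with y hy
      exact (Real.mul_self_sqrt (h.det_pos hy).le).symm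
    rw [Pool.Agent.Lib.PenroseSph.pd_congr a e, Pool.Agent.Lib.PenroseSph.pd_mul a hd hd]
  have h3 : (g x).det = vol g x * vol g x := (Real.mul_self_sqrt (h.det_pos hx).le).symm
  have h4 := h.vol_pos hx
  rw [h1, h3] at h2
  have h5 : vol g x * (pd a (vol g) x - vol g x * ∑ c, chr g c c a x) = 0 := by linear_combination (-1 / 2) * h2
  rcases mul_eq_zero.1 h5 with h6 | h6
  · exact absurd h6 h4.ne'
  · linarith

include h in
/-- Divergence with respect to the metric as a flat divergence. -/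
theorem MetOn.div_eq (F : Fin 3 → E3 → ℝ) (hF : ∀ a, ContDiffOn ℝ ∞ (F a) U) {x : E3} (hx : x ∈ U) :
    ∑ a, pd a (fun y => vol g y * F a y) x = vol g x * ∑ a, (pd a (F a) x + ∑ c, chr g c c a x * F a x) := by
  have hd : DifferentiableAt ℝ (vol g) x := (h.vol_smooth.contDiffAt (h.isOpen.mem_nhds hx)).differentiableAt (by simp)
  rw [Finset.mul_sum]
  refine Finset.sum_congr rfl fun a _ => ?_
  have hFa : DifferentiableAt ℝ (F a) x := ((hF a).contDiffAt (h.isOpen.mem_nhds hx)).differentiableAt (by simp)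
  rw [Pool.Agent.Lib.PenroseSph.pd_mul a hd hFa, h.pd_vol a hx, ← Finset.sum_mul]
  ring

variable {u : E3 → ℝ} (hu : ContDiffOn ℝ ∞ u U) {k : Tens} (hk : ∀ i j, ContDiffOn ℝ ∞ (fun x => k x i j) U)

include h hu in
theorem MetOn.gradU_smooth (a : Fin 3) : ContDiffOn ℝ ∞ (gradU g u a) U := by
  refine (smr_smooth (h.ga.gr (rest u hu) a)).congr fun x hx => ?_
  rw [extU_of _ hx]
  exact (val_gr h hu a ⟨x, hx⟩).symm

include h hu in
theorem MetOn.hessM_smooth (a i : Fin 3) : ContDiffOn ℝ ∞ (hessM g u a i) U := by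
  refine (smr_smooth (h.ga.hm (rest u hu) a i)).congr fun x hx => ?_
  rw [extU_of _ hx]
  exact (val_hm h hu a i ⟨x, hx⟩).symm

include h hu hk in
theorem MetOn.Yvec_smooth {e : ℝ} (he : 0 < e) (a : Fin 3) : ContDiffOn ℝ ∞ (Yvec g k u e a) U := by
  have hs := h.yreg_smooth hu he
  have hr : ContDiffOn ℝ ∞ (fun y => (yreg g u e y)⁻¹) U := hs.inv fun y hy => (h.yreg_pos he hy).ne'
  refine (smr_smooth (h.ga.YY (fun i j => rest (fun y => k y i j) (hk i j)) (rest u hu) (rest _ hs) (rest _ hr) a)).congr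
    fun x hx => ?_
  rw [extU_of _ hx]
  exact (val_YY h hu hk (e := e) _ _ (fun _ => rfl) (fun _ => rfl) a ⟨x, hx⟩).symm

include h hu hk in
/-- The regularised master identity: flat divergence form. -/
theorem MetOn.master_div {e : ℝ} (he : 0 < e) {x : E3} (hx : x ∈ U) :
    ∑ a, pd a (fun y => vol g y * (Real.exp (u y) * Yvec g k u e a y)) x = vol g x * (Real.exp (u x) * RHe g k u e x) := by
  rw [h.div_eq (fun a y => Real.exp (u y) * Yvec g k u e a y) (fun a => hu.exp.mul (h.Yvec_smooth hu hk he a)) hx,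
    h.master hu hk he hx]

end UMB
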