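import Mathlib

set_option autoImplicit false

/-!
# Riemannian geometry in a ring with three commuting derivations

`R` is a commutative real algebra (of smooth functions), `D i` are the partial derivatives, `g` is a metric, `G` its inverse.
-/

namespace UMB

/-- A commutative algebra with three commuting derivations, a metric and its inverse. -/
structure GA (R : Type*) [CommRing R] [Algebra ℝ R] where
  D : Fin 3 → Derivation ℝ R R
  comm : ∀ i j (f : R), D i (D j f) = D j (D i f)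
  g : Fin 3 → Fin 3 → R
  G : Fin 3 → Fin 3 → R
  gsymm : ∀ i j, g i j = g j i
  Gsymm : ∀ i j, G i j = G j i
  inv : ∀ i k, ∑ j, g i j * G j k = if i = k then 1 else 0

namespace GA

variable {R : Type*} [CommRing R] [Algebra ℝ R] (S : GA R)

/-- Christoffel symbols of the first kind. -/
noncomputable def c1 (l i j : Fin 3) : R :=
  (1 / 2 : ℝ) • (S.D i (S.g j l) + S.D j (S.g i l) - S.D l (S.g i j))

/-- Christoffel symbols (upper index k). -/
noncomputable def Ga (k i j : Fin 3) : R := ∑ l, S.G k l * S.c1 l i j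

/-- Ricci curvature. -/
noncomputable def ric (i j : Fin 3) : R :=
  ∑ k, (S.D k (S.Ga k i j) - S.D j (S.Ga k i k) + ∑ l, (S.Ga k k l * S.Ga l i j - S.Ga k j l * S.Ga l i k))

/-- Scalar curvature. -/
noncomputable def scal : R := ∑ i, ∑ j, S.G i j * S.ric i j

/-- Gradient (upper index). -/
noncomputable def gr (u : R) (a : Fin 3) : R := ∑ j, S.G a j * S.D j u

/-- Hessian (lower indices). -/
noncomputable def hs (u : R) (i j : Fin 3) : R := S.D i (S.D j u) - ∑ k, S.Ga k i j * S.D k u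

/-- Hessian with the first index raised. -/
noncomputable def hm (u : R) (a i : Fin 3) : R := ∑ j, S.G a j * S.hs u i j

/-- Laplacian. -/
noncomputable def lap (u : R) : R := ∑ a, S.hm u a a

/-- Squared length of the gradient. -/
noncomputable def fsq (u : R) : R := ∑ a, S.D a u * S.gr u a

/-- Divergence of a vector field. -/
noncomputable def dv (X : Fin 3 → R) : R := ∑ a, (S.D a (X a) + ∑ c, S.Ga c c a * X a)

/-- Raising the first index of a tensor. -/
noncomputable def up (k : Fin 3 → Fin 3 → R) (a b : Fin 3) : R := ∑ c, S.G a c * k c b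

/-- Trace of a tensor. -/
noncomputable def tr (k : Fin 3 → Fin 3 → R) : R := ∑ a, S.up k a a

/-- Inner product of two tensors. -/
noncomputable def ip (k h : Fin 3 → Fin 3 → R) : R := ∑ a, ∑ b, S.up k a b * S.up h b a

/-- Divergence of a tensor. -/
noncomputable def dvt (q : Fin 3 → Fin 3 → R) (j : Fin 3) : R :=
  ∑ i, ∑ k, S.G i k * (S.D i (q k j) - ∑ l, S.Ga l i k * q l j - ∑ l, S.Ga l i j * q k l)

theorem c1_symm (l i j : Fin 3) : S.c1 l i j = S.c1 l j i := by
  unfold c1
  rw [S.gsymm i j]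
  congr 1
  ring

theorem Ga_symm (k i j : Fin 3) : S.Ga k i j = S.Ga k j i := by
  unfold Ga
  exact Finset.sum_congr rfl fun l _ => by rw [S.c1_symm]

theorem g_Ga (m i j : Fin 3) : ∑ k, S.g m k * S.Ga k i j = S.c1 m i j := by
  unfold Ga
  have h : ∑ k, S.g m k * ∑ l, S.G k l * S.c1 l i j = ∑ l, (∑ k, S.g m k * S.G k l) * S.c1 l i j := by
    simp only [Finset.mul_sum, Finset.sum_mul]
    rw [Finset.sum_comm]
    exact Finset.sum_congr rfl fun l _ => Finset.sum_congr rfl fun k _ => by ring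
  rw [h]
  simp only [S.inv]
  simp

theorem Dg (i j m : Fin 3) : S.D i (S.g j m) = ∑ k, S.g m k * S.Ga k i j + ∑ k, S.g j k * S.Ga k i m := by
  rw [S.g_Ga, S.g_Ga]
  unfold c1
  rw [S.gsymm m j, ← smul_add]
  have : S.D i (S.g j m) + S.D j (S.g i m) - S.D m (S.g i j) + (S.D i (S.g j m) + S.D m (S.g i j) - S.D j (S.g i m))
      = (2 : ℝ) • S.D i (S.g j m) := by
    rw [two_smul]; ring
  rw [this, smul_smul]
  norm_num

theorem inv' (i k : Fin 3) : ∑ j, S.G i j * S.g j k = if i = k then 1 else 0 := by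
  have := S.inv k i
  rw [show (∑ j, S.G i j * S.g j k) = ∑ j, S.g k j * S.G j i from
    Finset.sum_congr rfl fun j _ => by rw [S.gsymm j k, S.Gsymm i j]; ring, this]
  simp [eq_comm]

/-- Derivative of the inverse metric. -/
theorem DG (i a b : Fin 3) : S.D i (S.G a b) = - ∑ j, S.Ga b i j * S.G a j - ∑ m, S.Ga a i m * S.G m b := by
  -- differentiate ∑ j, g j m * G m b = δ
  have h0 : ∀ j, ∑ m, (S.g j m * S.D i (S.G m b) + S.G m b * S.D i (S.g j m)) = 0 := by
    intro j
    have h := congrArg (S.D i) (S.inv j b)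
    simp only [map_sum, Derivation.leibniz, smul_eq_mul] at h
    rw [h]
    split_ifs <;> simp
  have h1 : S.D i (S.G a b) = ∑ j, S.G a j * ∑ m, S.g j m * S.D i (S.G m b) := by
    have : ∑ j, S.G a j * ∑ m, S.g j m * S.D i (S.G m b) = ∑ m, (∑ j, S.G a j * S.g j m) * S.D i (S.G m b) := by
      simp only [Finset.mul_sum, Finset.sum_mul]
      rw [Finset.sum_comm]
      exact Finset.sum_congr rfl fun l _ => Finset.sum_congr rfl fun k _ => by ring
    rw [this]
    simp only [S.inv']
    simp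
  have h2 : ∀ j, ∑ m, S.g j m * S.D i (S.G m b) = - ∑ m, S.G m b * S.D i (S.g j m) := by
    intro j
    have := h0 j
    rw [Finset.sum_add_distrib] at this
    linear_combination this
  rw [h1]
  simp only [h2, S.Dg]
  have e1 : ∀ j, ∑ m, S.G m b * (∑ k, S.g m k * S.Ga k i j + ∑ k, S.g j k * S.Ga k i m)
      = S.Ga b i j + ∑ m, ∑ k, S.g j k * S.Ga k i m * S.G m b := by
    intro j
    simp only [mul_add, Finset.sum_add_distrib]
    congr 1
    · have : ∑ m, S.G m b * ∑ k, S.g m k * S.Ga k i j = ∑ k, (∑ m, S.g k m * S.G m b) * S.Ga k i j := by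
        simp only [Finset.mul_sum, Finset.sum_mul]
        rw [Finset.sum_comm]
        exact Finset.sum_congr rfl fun l _ => Finset.sum_congr rfl fun k _ => by rw [S.gsymm l k]; ring
      rw [this]
      simp only [S.inv]
      simp
    · simp only [Finset.mul_sum]
      exact Finset.sum_congr rfl fun l _ => Finset.sum_congr rfl fun k _ => by ring
  simp only [e1]
  have e2 : ∑ j, S.G a j * ∑ m, ∑ k, S.g j k * S.Ga k i m * S.G m b = ∑ m, S.Ga a i m * S.G m b := by
    have : ∑ j, S.G a j * ∑ m, ∑ k, S.g j k * S.Ga k i m * S.G m b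
        = ∑ m, ∑ k, (∑ j, S.G a j * S.g j k) * S.Ga k i m * S.G m b := by
      simp only [Finset.mul_sum, Finset.sum_mul]
      rw [Finset.sum_comm]
      refine Finset.sum_congr rfl fun m _ => ?_
      rw [Finset.sum_comm]
      exact Finset.sum_congr rfl fun l _ => Finset.sum_congr rfl fun k _ => by ring
    rw [this]
    simp only [S.inv']
    simp
  calc ∑ j, S.G a j * -(S.Ga b i j + ∑ m, ∑ k, S.g j k * S.Ga k i m * S.G m b)
      = - ∑ j, S.Ga b i j * S.G a j - ∑ j, S.G a j * ∑ m, ∑ k, S.g j k * S.Ga k i m * S.G m b := by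
        rw [← Finset.sum_neg_distrib, ← Finset.sum_sub_distrib]
        exact Finset.sum_congr rfl fun l _ => by ring
    _ = _ := by rw [e2]

theorem hs_symm (u : R) (i j : Fin 3) : S.hs u i j = S.hs u j i := by
  unfold hs
  rw [S.comm i j]
  congr 1
  exact Finset.sum_congr rfl fun k _ => by rw [S.Ga_symm]

/-- Covariant derivative of the gradient. -/
theorem D_gr (u : R) (i a : Fin 3) : S.D i (S.gr u a) = S.hm u a i - ∑ j, S.Ga a i j * S.gr u j := by
  unfold gr hm hs
  simp only [map_sum, Derivation.leibniz, smul_eq_mul, S.DG]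
  simp only [Fin.sum_univ_three]
  ring

/-- The Hessian from the gradient. -/
theorem hm_eq (u : R) (a i : Fin 3) : S.hm u a i = S.D i (S.gr u a) + ∑ j, S.Ga a i j * S.gr u j := by
  rw [S.D_gr]; ring

/-- Covariant derivative of the Hessian (first index upper). -/
noncomputable def cdM (M : Fin 3 → Fin 3 → R) (a b k : Fin 3) : R :=
  S.D a (M b k) + ∑ c, S.Ga b a c * M c k - ∑ c, S.Ga c a k * M b c

/-- Contracted commutation rule. -/
theorem ricci_id (u : R) (k : Fin 3) :
    ∑ a, (S.cdM (S.hm u) a a k - S.cdM (S.hm u) k a a) = ∑ j, S.ric j k * S.gr u j := by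
  have hs1 : ∀ c a b, S.Ga c a b = S.Ga c b a := S.Ga_symm
  have hk : ∀ a, S.cdM (S.hm u) a a k - S.cdM (S.hm u) k a a =
      ∑ j, (S.D a (S.Ga a j k) - S.D k (S.Ga a j a)
        + ∑ l, (S.Ga a a l * S.Ga l j k - S.Ga a k l * S.Ga l j a)) * S.gr u j := by
    intro a
    unfold cdM
    simp only [S.hm_eq, map_add, map_sum, Derivation.leibniz, smul_eq_mul, S.comm a k]
    simp only [Fin.sum_univ_three]
    have h3 : ∀ c, S.Ga c k a = S.Ga c a k := fun c => hs1 c k a
    simp only [hs1 _ 1 0, hs1 _ 2 0, hs1 _ 2 1, hs1 _ k 0, hs1 _ k 1, hs1 _ k 2, hs1 _ a 0, hs1 _ a 1, hs1 _ a 2, h3]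
    ring
  simp only [hk]
  rw [Finset.sum_comm]
  unfold ric
  exact Finset.sum_congr rfl fun j _ => by rw [Finset.sum_mul]

/-- The vector field `Hess(grad) - Lap grad`. -/
noncomputable def VV (u : R) (a : Fin 3) : R := ∑ k, S.hm u a k * S.gr u k - S.lap u * S.gr u a

/-- Squared length of the Hessian. -/
noncomputable def hsq (u : R) : R := ∑ a, ∑ k, S.hm u a k * S.hm u k a

/-- Ricci curvature on the gradient. -/
noncomputable def ricg (u : R) : R := ∑ j, ∑ k, S.ric j k * S.gr u j * S.gr u k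

/-- Bochner formula in divergence form. -/
theorem dv_VV (u : R) : S.dv (S.VV u) = S.hsq u - S.lap u ^ 2 + S.ricg u := by
  have h1 : ∀ k, ∑ a, (S.cdM (S.hm u) a a k - S.cdM (S.hm u) k a a) = ∑ j, S.ric j k * S.gr u j := S.ricci_id u
  have h2 : S.ricg u = ∑ k, (∑ a, (S.cdM (S.hm u) a a k - S.cdM (S.hm u) k a a)) * S.gr u k := by
    unfold ricg
    rw [Finset.sum_comm]
    exact Finset.sum_congr rfl fun k _ => by rw [h1 k, Finset.sum_mul]
  rw [h2]
  unfold dv VV lap hsq cdM
  simp only [map_sub, map_sum, Derivation.leibniz, smul_eq_mul, S.D_gr]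
  simp only [Fin.sum_univ_three, S.Ga_symm _ 1 0, S.Ga_symm _ 2 0, S.Ga_symm _ 2 1]
  ring

/-- Derivative of the squared length of the gradient. -/
theorem D_fsq (u : R) (i : Fin 3) : S.D i (S.fsq u) = 2 * ∑ j, S.hs u i j * S.gr u j := by
  have h : ∀ j, S.D i (S.D j u) = S.hs u i j + ∑ k, S.Ga k i j * S.D k u := fun j => by unfold hs; ring
  have h4 : ∑ a, S.D a u * S.hm u a i = ∑ j, S.hs u i j * S.gr u j := by
    unfold hm gr
    simp only [Fin.sum_univ_three, S.Gsymm 1 0, S.Gsymm 2 0, S.Gsymm 2 1]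
    ring
  have h5 : S.D i (S.fsq u) = ∑ j, S.hs u i j * S.gr u j + ∑ a, S.D a u * S.hm u a i := by
    unfold fsq
    simp only [map_sum, Derivation.leibniz, smul_eq_mul, S.D_gr, h]
    simp only [Fin.sum_univ_three]
    ring
  rw [h5, h4]
  ring

/-- The vector field `tr k grad - k(grad)`. -/
noncomputable def ZZ (k : Fin 3 → Fin 3 → R) (u : R) (a : Fin 3) : R := S.tr k * S.gr u a - ∑ b, S.up k a b * S.gr u b

/-- Divergence of the field `Z`. -/
theorem dv_ZZ (k : Fin 3 → Fin 3 → R) (u : R) :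
    S.dv (S.ZZ k u) = S.tr k * S.lap u - ∑ a, ∑ b, S.up k a b * S.hm u b a
      - ∑ j, (S.dvt k j - S.D j (S.tr k)) * S.gr u j := by
  have h1 : ∀ j, S.dvt k j = ∑ a, (S.D a (S.up k a j) + ∑ c, S.Ga a a c * S.up k c j - ∑ c, S.Ga c a j * S.up k a c) := by
    intro j
    unfold dvt up
    simp only [map_sum, Derivation.leibniz, smul_eq_mul, S.DG]
    simp only [Fin.sum_univ_three, S.Ga_symm _ 1 0, S.Ga_symm _ 2 0, S.Ga_symm _ 2 1, S.Gsymm 1 0, S.Gsymm 2 0, S.Gsymm 2 1]
    ring
  simp only [h1]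
  unfold dv ZZ lap
  simp only [map_sub, map_sum, Derivation.leibniz, smul_eq_mul, S.D_gr]
  simp only [Fin.sum_univ_three, S.Ga_symm _ 1 0, S.Ga_symm _ 2 0, S.Ga_symm _ 2 1]
  unfold tr
  simp only [Fin.sum_univ_three]
  ring

/-- `Hess(grad)`, lower index. -/
noncomputable def hg (u : R) (i : Fin 3) : R := ∑ j, S.hs u i j * S.gr u j

/-- `|Hess(grad)|²`. -/
noncomputable def hgq (u : R) : R := ∑ i, ∑ j, S.G i j * S.hg u i * S.hg u j

/-- `Hess(grad, grad)`. -/
noncomputable def hgg (u : R) : R := ∑ i, S.hg u i * S.gr u i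

/-- `<k, Hess>`. -/
noncomputable def kh (k : Fin 3 → Fin 3 → R) (u : R) : R := ∑ a, ∑ b, S.up k a b * S.hm u b a

/-- `(div k - d tr k)(grad)`. -/
noncomputable def Jg (k : Fin 3 → Fin 3 → R) (u : R) : R := ∑ j, (S.dvt k j - S.D j (S.tr k)) * S.gr u j

/-- `k(grad, grad)`. -/
noncomputable def kgg (k : Fin 3 → Fin 3 → R) (u : R) : R := ∑ a, ∑ b, S.D a u * S.up k a b * S.gr u b

theorem dv_mul (E : R) (X : Fin 3 → R) : S.dv (fun a => E * X a) = E * S.dv X + ∑ a, S.D a E * X a := by
  unfold dv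
  simp only [Derivation.leibniz, smul_eq_mul, Fin.sum_univ_three]
  ring

theorem dv_add (X Y : Fin 3 → R) : S.dv (fun a => X a + Y a) = S.dv X + S.dv Y := by
  unfold dv
  simp only [map_add, Fin.sum_univ_three]
  ring

theorem dv_gr (u : R) : S.dv (S.gr u) = S.lap u := by
  unfold dv lap
  simp only [S.D_gr, Fin.sum_univ_three, S.Ga_symm _ 1 0, S.Ga_symm _ 2 0, S.Ga_symm _ 2 1]
  ring

theorem hg_VV (u : R) : ∑ a, S.hg u a * S.VV u a = S.hgq u - S.lap u * S.hgg u := by
  unfold hgq hgg VV hm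
  simp only [hg, Fin.sum_univ_three, S.Gsymm 1 0, S.Gsymm 2 0, S.Gsymm 2 1, S.hs_symm u 1 0, S.hs_symm u 2 0,
    S.hs_symm u 2 1]
  ring

theorem D_VV (u : R) : ∑ a, S.D a u * S.VV u a = S.hgg u - S.lap u * S.fsq u := by
  have h : ∑ a, S.D a u * ∑ k, S.hm u a k * S.gr u k = S.hgg u := by
    unfold hgg hg hm gr
    simp only [Fin.sum_univ_three, S.Gsymm 1 0, S.Gsymm 2 0, S.Gsymm 2 1, S.hs_symm u 1 0, S.hs_symm u 2 0,
      S.hs_symm u 2 1]
    ring
  rw [← h]
  unfold VV fsq
  simp only [Fin.sum_univ_three]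
  ring

theorem D_ZZ (k : Fin 3 → Fin 3 → R) (u : R) : ∑ a, S.D a u * S.ZZ k u a = S.tr k * S.fsq u - S.kgg k u := by
  unfold ZZ fsq kgg
  simp only [Fin.sum_univ_three]
  ring

/-- The regularised vector field. -/
noncomputable def YY (k : Fin 3 → Fin 3 → R) (u s r : R) (a : Fin 3) : R := r * S.VV u a + s * S.gr u a + S.ZZ k u a

/-- The right side of the master identity. -/
noncomputable def RH (k : Fin 3 → Fin 3 → R) (u s r : R) : R :=
  r * (S.hsq u - S.lap u ^ 2 + S.ricg u) - r ^ 3 * (S.hgq u - S.lap u * S.hgg u) + s * S.lap u + r * S.hgg u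
    + S.tr k * S.lap u - S.kh k u - S.Jg k u
    + r * (S.hgg u - S.lap u * S.fsq u) + s * S.fsq u + S.tr k * S.fsq u - S.kgg k u

theorem D_s (u s r e : R) (he : ∀ i, S.D i e = 0) (hs : s * s = S.fsq u + e) (hr : r * s = 1) (i : Fin 3) :
    S.D i s = r * S.hg u i := by
  have h := congrArg (S.D i) hs
  simp only [Derivation.leibniz, smul_eq_mul, map_add, S.D_fsq, he, add_zero] at h
  have h2 : (2 : R) * (s * S.D i s - S.hg u i) = 0 := by
    unfold hg
    linear_combination h
  have h3 : s * S.D i s - S.hg u i = 0 := by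
    have h4 : (2 : ℝ) • (s * S.D i s - S.hg u i) = 0 := by
      rw [two_smul]; linear_combination h2
    have h5 := congrArg (fun z => (1 / 2 : ℝ) • z) h4
    simpa [smul_smul] using h5
  calc S.D i s = r * s * S.D i s := by rw [hr, one_mul]
    _ = r * S.hg u i := by linear_combination r * h3

theorem D_r (u s r e : R) (he : ∀ i, S.D i e = 0) (hs : s * s = S.fsq u + e) (hr : r * s = 1) (i : Fin 3) :
    S.D i r = - r ^ 3 * S.hg u i := by
  have h := congrArg (S.D i) hr
  simp only [Derivation.leibniz, smul_eq_mul] at h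
  have h1 : S.D i (1 : R) = 0 := Derivation.map_one_eq_zero _
  rw [h1, S.D_s u s r e he hs hr i] at h
  calc S.D i r = r * (s * S.D i r) := by rw [← mul_assoc, hr, one_mul]
    _ = _ := by linear_combination r * h

/-- The master identity, regularised. -/
theorem master (k : Fin 3 → Fin 3 → R) (u s r e E : R) (he : ∀ i, S.D i e = 0) (hs : s * s = S.fsq u + e)
    (hr : r * s = 1) (hE : ∀ i, S.D i E = E * S.D i u) :
    S.dv (fun a => E * S.YY k u s r a) = E * S.RH k u s r := by
  rw [S.dv_mul]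
  have h1 : ∑ a, S.D a E * S.YY k u s r a = E * ∑ a, S.D a u * S.YY k u s r a := by
    simp only [hE, Fin.sum_univ_three]
    ring
  have h2 : ∑ a, S.D a u * S.YY k u s r a
      = r * (S.hgg u - S.lap u * S.fsq u) + s * S.fsq u + (S.tr k * S.fsq u - S.kgg k u) := by
    rw [← S.D_VV, ← S.D_ZZ]
    unfold YY fsq
    simp only [Fin.sum_univ_three]
    ring
  have h3 : S.dv (S.YY k u s r) = r * (S.hsq u - S.lap u ^ 2 + S.ricg u) - r ^ 3 * (S.hgq u - S.lap u * S.hgg u)
      + (s * S.lap u + r * S.hgg u) + (S.tr k * S.lap u - S.kh k u - S.Jg k u) := by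
    have e1 : S.dv (S.YY k u s r) = S.dv (fun a => r * S.VV u a) + S.dv (fun a => s * S.gr u a) + S.dv (S.ZZ k u) := by
      rw [← S.dv_add, ← S.dv_add]
      rfl
    rw [e1, S.dv_mul, S.dv_mul, S.dv_VV, S.dv_gr, S.dv_ZZ]
    have e2 : ∑ a, S.D a r * S.VV u a = - r ^ 3 * (S.hgq u - S.lap u * S.hgg u) := by
      rw [← S.hg_VV]
      simp only [S.D_r u s r e he hs hr, Fin.sum_univ_three]
      ring
    have e3 : ∑ a, S.D a s * S.gr u a = r * S.hgg u := by
      unfold hgg
      simp only [S.D_s u s r e he hs hr, Fin.sum_univ_three]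
      ring
    rw [e2, e3]
    unfold kh Jg
    ring
  rw [h1, h2, h3]
  unfold RH
  ring

end GA

end UMB
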