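import Pool.Agent.Lib.UMB.S1.Defs
import Pool.Agent.Lib.UMB.S1.Alg
import Pool.Agent.Lib.PenroseSph.Calc

set_option autoImplicit false

/-!
# UMB, section 1: the ring of smooth functions on an open set
-/

open Filter Topology Set
open scoped ContDiff

namespace UMB

open Pool.Agent.Lib.PenroseSph (E3 Tens pd chr ric scal trg normSqg divg energy momentum)

open Classical in
/-- Extension by zero. -/
noncomputable def extU (U : Set E3) (f : U → ℝ) (x : E3) : ℝ := if h : x ∈ U then f ⟨x, h⟩ else 0

theorem extU_of {U : Set E3} (f : U → ℝ) {x : E3} (h : x ∈ U) : extU U f x = f ⟨x, h⟩ := by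
  unfold extU; rw [dif_pos h]

/-- The algebra of smooth functions on the open set `U`. -/
noncomputable def SmR (U : Set E3) : Subalgebra ℝ (U → ℝ) where
  carrier := {f | ContDiffOn ℝ ∞ (extU U f) U}
  mul_mem' {f g} hf hg := by
    refine (hf.mul hg).congr fun x hx => ?_
    simp only [extU_of _ hx, Pi.mul_apply]
  add_mem' {f g} hf hg := by
    refine (hf.add hg).congr fun x hx => ?_
    simp only [extU_of _ hx, Pi.add_apply]
  algebraMap_mem' r := by
    refine (contDiffOn_const (c := r)).congr fun x hx => ?_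
    simp only [extU_of _ hx]
    rfl

/-- Restriction of a function which is smooth on `U`. -/
noncomputable def rest {U : Set E3} (F : E3 → ℝ) (hF : ContDiffOn ℝ ∞ F U) : SmR U :=
  ⟨fun x => F x, by
    refine hF.congr fun x hx => ?_
    simp only [extU_of _ hx]⟩

theorem rest_apply {U : Set E3} (F : E3 → ℝ) (hF : ContDiffOn ℝ ∞ F U) (x : U) : (rest F hF).1 x = F x := rfl

theorem smr_smooth {U : Set E3} (f : SmR U) : ContDiffOn ℝ ∞ (extU U f.1) U := f.2

theorem smr_diff {U : Set E3} (hU : IsOpen U) (f : SmR U) {x : E3} (hx : x ∈ U) : DifferentiableAt ℝ (extU U f.1) x :=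
  (f.2.contDiffAt (hU.mem_nhds hx)).differentiableAt (by simp)

theorem smooth_pd {U : Set E3} (hU : IsOpen U) {F : E3 → ℝ} (hF : ContDiffOn ℝ ∞ F U) (k : Fin 3) :
    ContDiffOn ℝ ∞ (pd k F) U := by
  have h := hF.fderiv_of_isOpen hU (m := ∞) (by simp)
  exact h.clm_apply contDiffOn_const

theorem extU_eventually {U : Set E3} (hU : IsOpen U) (f : U → ℝ) (F : E3 → ℝ) (h : ∀ x : U, f x = F x) {x : E3} (hx : x ∈ U) :
    extU U f =ᶠ[𝓝 x] F := by
  filter_upwards [hU.mem_nhds hx] with y hy
  rw [extU_of _ hy, h]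

/-- Partial derivative as a derivation. -/
noncomputable def Dk {U : Set E3} (hU : IsOpen U) (k : Fin 3) : Derivation ℝ (SmR U) (SmR U) :=
  Derivation.mk'
    { toFun := fun f => rest (pd k (extU U f.1)) (smooth_pd hU f.2 k)
      map_add' := fun f g => by
        apply Subtype.ext
        funext x
        have h1 : (rest (pd k (extU U (f + g).1)) (smooth_pd hU (f + g).2 k)).1 x = pd k (extU U (f + g).1) x := rfl
        have h2 : pd k (extU U (f + g).1) x = pd k (fun y => extU U f.1 y + extU U g.1 y) x := by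
          apply Pool.Agent.Lib.PenroseSph.pd_congr
          exact extU_eventually hU _ _ (fun y => by simp only [extU_of _ y.2]; rfl) x.2
        rw [h1, h2, Pool.Agent.Lib.PenroseSph.pd_add k (smr_diff hU f x.2) (smr_diff hU g x.2)]
        rfl
      map_smul' := fun c f => by
        apply Subtype.ext
        funext x
        have h1 : (rest (pd k (extU U (c • f).1)) (smooth_pd hU (c • f).2 k)).1 x = pd k (extU U (c • f).1) x := rfl
        have h2 : pd k (extU U (c • f).1) x = pd k (fun y => c * extU U f.1 y) x := by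
          apply Pool.Agent.Lib.PenroseSph.pd_congr
          exact extU_eventually hU _ _ (fun y => by simp only [extU_of _ y.2]; rfl) x.2
        rw [h1, h2, Pool.Agent.Lib.PenroseSph.pd_const_mul k c (smr_diff hU f x.2)]
        rfl }
    (fun f g => by
        apply Subtype.ext
        funext x
        have h1 : (rest (pd k (extU U (f * g).1)) (smooth_pd hU (f * g).2 k)).1 x = pd k (extU U (f * g).1) x := rfl
        have h2 : pd k (extU U (f * g).1) x = pd k (fun y => extU U f.1 y * extU U g.1 y) x := by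
          apply Pool.Agent.Lib.PenroseSph.pd_congr
          exact extU_eventually hU _ _ (fun y => by simp only [extU_of _ y.2]; rfl) x.2
        refine h1.trans (h2.trans ?_)
        rw [Pool.Agent.Lib.PenroseSph.pd_mul k (smr_diff hU f x.2) (smr_diff hU g x.2)]
        have e1 : extU U f.1 x = f.1 x := extU_of _ x.2
        have e2 : extU U g.1 x = g.1 x := extU_of _ x.2
        rw [e1, e2]
        show _ = f.1 x * pd k (extU U g.1) x + g.1 x * pd k (extU U f.1) x
        ring)

theorem Dk_apply {U : Set E3} (hU : IsOpen U) (k : Fin 3) (f : SmR U) (F : E3 → ℝ) (h : ∀ x : U, f.1 x = F x) (x : U) :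
    (Dk hU k f).1 x = pd k F x := by
  have h1 : (Dk hU k f).1 x = pd k (extU U f.1) x := rfl
  rw [h1]
  exact Pool.Agent.Lib.PenroseSph.pd_congr k (extU_eventually hU _ _ h x.2)

theorem Dk_comm {U : Set E3} (hU : IsOpen U) (i j : Fin 3) (f : SmR U) : Dk hU i (Dk hU j f) = Dk hU j (Dk hU i f) := by
  apply Subtype.ext
  funext x
  have h : ∀ k : Fin 3, ∀ y : U, (Dk hU k f).1 y = pd k (extU U f.1) y := fun k y => rfl
  rw [Dk_apply hU i (Dk hU j f) _ (h j) x, Dk_apply hU j (Dk hU i f) _ (h i) x]
  have hs : ContDiffAt ℝ ∞ (extU U f.1) x := f.2.contDiffAt (hU.mem_nhds x.2)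
  have h2 : ∀ k : Fin 3, ∀ v : E3, fderiv ℝ (pd k (extU U f.1)) x v =
      fderiv ℝ (fderiv ℝ (extU U f.1)) x v (EuclideanSpace.single k 1) := by
    intro k v
    have hd : DifferentiableAt ℝ (fderiv ℝ (extU U f.1)) (x : E3) :=
      (hs.fderiv_right (m := ∞) (by simp)).differentiableAt (by simp)
    have := hd.hasFDerivAt.clm_apply (hasFDerivAt_const (EuclideanSpace.single k (1 : ℝ)) (x : E3))
    have h3 : fderiv ℝ (pd k (extU U f.1)) x = _ := this.fderiv
    rw [h3]
    simp
  have hsymm : IsSymmSndFDerivAt ℝ (extU U f.1) (x : E3) := by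
    refine hs.isSymmSndFDerivAt ?_
    rw [minSmoothness_of_isRCLikeNormedField]
    exact WithTop.coe_le_coe.2 le_top
  show fderiv ℝ (pd j (extU U f.1)) x (EuclideanSpace.single i 1) = fderiv ℝ (pd i (extU U f.1)) x (EuclideanSpace.single j 1)
  rw [h2, h2]
  exact hsymm _ _

end UMB
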