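import Pool.Agent.Lib.UMB.S1.Inst

set_option autoImplicit false

/-!
# UMB, section 1: a metric on an open set as a `GA` structure, evaluation of the algebraic expressions
-/

open Filter Topology Set
open scoped ContDiff

namespace UMB

open Pool.Agent.Lib.PenroseSph (E3 Tens pd chr ric scal trg normSqg divg energy momentum)

/-- `g` is a smooth Riemannian metric on the open set `U`. -/
structure MetOn (g : Tens) (U : Set E3) : Prop where
  isOpen : IsOpen U
  smooth : ∀ i j, ContDiffOn ℝ ∞ (fun x => g x i j) U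
  symm : ∀ x ∈ U, (g x).IsSymm
  pos : ∀ x ∈ U, ∀ v : Fin 3 → ℝ, v ≠ 0 → 0 < ∑ i, ∑ j, g x i j * v i * v j

theorem MetOn.posDef {g : Tens} {U : Set E3} (h : MetOn g U) {x : E3} (hx : x ∈ U) : (g x).PosDef := by
  refine Matrix.PosDef.of_dotProduct_mulVec_pos ?_ ?_
  · have := h.symm x hx
    unfold Matrix.IsSymm at this
    rw [Matrix.IsHermitian, Matrix.conjTranspose_eq_transpose_of_trivial, this]
  · intro v hv
    have := h.pos x hx v hv
    have e : star v ⬝ᵥ (g x).mulVec v = ∑ i, ∑ j, g x i j * v i * v j := by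
      simp only [dotProduct, Matrix.mulVec, Pi.star_apply, star_trivial, Finset.mul_sum]
      exact Finset.sum_congr rfl fun i _ => Finset.sum_congr rfl fun j _ => by ring
    rw [e]
    exact this

theorem MetOn.det_pos {g : Tens} {U : Set E3} (h : MetOn g U) {x : E3} (hx : x ∈ U) : 0 < (g x).det := (h.posDef hx).det_pos

theorem MetOn.det_smooth {g : Tens} {U : Set E3} (h : MetOn g U) : ContDiffOn ℝ ∞ (fun x => (g x).det) U := by
  simp only [Matrix.det_fin_three]
  have := h.smooth
  fun_prop

theorem MetOn.inv_smooth {g : Tens} {U : Set E3} (h : MetOn g U) (i j : Fin 3) :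
    ContDiffOn ℝ ∞ (fun x => (g x)⁻¹ i j) U := by
  have h1 : ∀ x, (g x)⁻¹ i j = (g x).det⁻¹ * (g x).adjugate i j := by
    intro x
    rw [Matrix.inv_def, Ring.inverse_eq_inv', Matrix.smul_apply, smul_eq_mul]
  simp only [h1]
  refine ContDiffOn.mul (h.det_smooth.inv fun x hx => (h.det_pos hx).ne') ?_
  have := h.smooth
  simp only [Matrix.adjugate_fin_three]
  fin_cases i <;> fin_cases j <;> simp <;> fun_prop

theorem MetOn.mul_inv {g : Tens} {U : Set E3} (h : MetOn g U) {x : E3} (hx : x ∈ U) (i k : Fin 3) :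
    ∑ j, g x i j * (g x)⁻¹ j k = if i = k then 1 else 0 := by
  have h1 : g x * (g x)⁻¹ = 1 := Matrix.mul_nonsing_inv _ (isUnit_iff_ne_zero.2 (h.det_pos hx).ne')
  have := congrFun (congrFun h1 i) k
  rw [Matrix.mul_apply, Matrix.one_apply] at this
  exact this

theorem MetOn.inv_symm {g : Tens} {U : Set E3} (h : MetOn g U) {x : E3} (hx : x ∈ U) (i k : Fin 3) :
    (g x)⁻¹ i k = (g x)⁻¹ k i := by
  have h1 : (g x)⁻¹.IsSymm := by
    unfold Matrix.IsSymm
    rw [Matrix.transpose_nonsing_inv, h.symm x hx]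
  exact h1.apply k i

/-- The metric as an algebraic structure. -/
noncomputable def MetOn.ga {g : Tens} {U : Set E3} (h : MetOn g U) : GA (SmR U) where
  D := Dk h.isOpen
  comm := Dk_comm h.isOpen
  g i j := rest (fun x => g x i j) (h.smooth i j)
  G i j := rest (fun x => (g x)⁻¹ i j) (h.inv_smooth i j)
  gsymm i j := by
    apply Subtype.ext
    funext x
    exact (h.symm x x.2).apply j i
  Gsymm i j := by
    apply Subtype.ext
    funext x
    exact h.inv_symm x.2 i j
  inv i k := by
    apply Subtype.ext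
    funext x
    have h1 := h.mul_inv x.2 i k
    have h2 : (∑ j, rest (fun x => g x i j) (h.smooth i j) * rest (fun x => (g x)⁻¹ j k) (h.inv_smooth j k)).1 x
        = ∑ j, g x i j * (g x)⁻¹ j k := by
      simp only [AddSubmonoidClass.coe_finsetSum, Finset.sum_apply, MulMemClass.coe_mul, Pi.mul_apply, rest_apply]
    rw [h2, h1]
    split_ifs <;> rfl

end UMB
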