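import Pool.Agent.Lib.PenroseSph.Defs

set_option autoImplicit false

/-!
# UMB, section 1: the vector field of the master identity

All functions are given by coordinate formulas with the definitions of `Lib/PenroseSph/Defs.lean` (`pd`, `chr`, `ric`, `scal`,
`trg`, `divg`, `energy`, `momentum`). `u` is the function whose level sets are used (`theta` of the paper proof).
-/

open Filter Topology Set MeasureTheory

namespace UMB

open Pool.Agent.Lib.PenroseSph (E3 Tens pd chr ric scal trg normSqg divg energy momentum)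

/-- The gradient of `u` (upper index). -/
noncomputable def gradU (g : Tens) (u : E3 → ℝ) (a : Fin 3) (x : E3) : ℝ := ∑ j, (g x)⁻¹ a j * pd j u x

/-- The Hessian of `u` (lower indices). -/
noncomputable def hess (g : Tens) (u : E3 → ℝ) (i j : Fin 3) (x : E3) : ℝ :=
  pd i (pd j u) x - ∑ k, chr g k i j x * pd k u x

/-- The Hessian with one index raised. -/
noncomputable def hessM (g : Tens) (u : E3 → ℝ) (a i : Fin 3) (x : E3) : ℝ := ∑ j, (g x)⁻¹ a j * hess g u i j x

/-- The Laplacian. -/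
noncomputable def lapG (g : Tens) (u : E3 → ℝ) (x : E3) : ℝ := ∑ a, hessM g u a a x

/-- `|∇u|²`. -/
noncomputable def gsq (g : Tens) (u : E3 → ℝ) (x : E3) : ℝ := ∑ a, pd a u x * gradU g u a x

/-- `Hess u (∇u)` (lower index). -/
noncomputable def hgrad (g : Tens) (u : E3 → ℝ) (i : Fin 3) (x : E3) : ℝ := ∑ j, hess g u i j x * gradU g u j x

/-- `|Hess u (∇u)|²`. -/
noncomputable def hgradSq (g : Tens) (u : E3 → ℝ) (x : E3) : ℝ :=
  ∑ i, ∑ j, (g x)⁻¹ i j * hgrad g u i x * hgrad g u j x

/-- `Hess u (∇u, ∇u)`. -/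
noncomputable def hgg (g : Tens) (u : E3 → ℝ) (x : E3) : ℝ := ∑ i, hgrad g u i x * gradU g u i x

/-- `|Hess u|²`. -/
noncomputable def hessSq (g : Tens) (u : E3 → ℝ) (x : E3) : ℝ := ∑ a, ∑ k, hessM g u a k x * hessM g u k a x

/-- `Ric(∇u, ∇u)`. -/
noncomputable def ricGG (g : Tens) (u : E3 → ℝ) (x : E3) : ℝ := ∑ j, ∑ k, ric g j k x * gradU g u j x * gradU g u k x

/-- The tensor `k` with the first index raised. -/
noncomputable def upk (g k : Tens) (a b : Fin 3) (x : E3) : ℝ := ∑ c, (g x)⁻¹ a c * k x c b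

/-- `k(∇u, ∇u)`. -/
noncomputable def kGG (g k : Tens) (u : E3 → ℝ) (x : E3) : ℝ := ∑ a, ∑ b, pd a u x * upk g k a b x * gradU g u b x

/-- `⟨k, Hess u⟩`. -/
noncomputable def kHess (g k : Tens) (u : E3 → ℝ) (x : E3) : ℝ := ∑ a, ∑ b, upk g k a b x * hessM g u b a x

/-- `J(∇u)`, `J` the momentum density of `(g, k)`. -/
noncomputable def JGrad (g k : Tens) (u : E3 → ℝ) (x : E3) : ℝ := ∑ j, momentum g k j x * gradU g u j x

/-- The regularised length `√(|∇u|² + e)` of the gradient. -/
noncomputable def yreg (g : Tens) (u : E3 → ℝ) (e : ℝ) (x : E3) : ℝ := Real.sqrt (gsq g u x + e)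

/-- The regularised vector field of the master identity:
`Y_e = (Hess u(∇u) - Δu ∇u) / y_e + y_e ∇u + tr k ∇u - k(∇u)`. -/
noncomputable def Yvec (g k : Tens) (u : E3 → ℝ) (e : ℝ) (a : Fin 3) (x : E3) : ℝ :=
  (∑ b, hessM g u a b x * gradU g u b x - lapG g u x * gradU g u a x) / yreg g u e x + yreg g u e x * gradU g u a x
    + (trg g k x * gradU g u a x - ∑ b, upk g k a b x * gradU g u b x)

/-- The divergence of `exp u * Y_e` divided by `exp u`. -/
noncomputable def RHe (g k : Tens) (u : E3 → ℝ) (e : ℝ) (x : E3) : ℝ :=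
  (hessSq g u x - lapG g u x ^ 2 + ricGG g u x) / yreg g u e x
    - (hgradSq g u x - lapG g u x * hgg g u x) / yreg g u e x ^ 3
    + yreg g u e x * lapG g u x + hgg g u x / yreg g u e x
    + trg g k x * lapG g u x - kHess g k u x - JGrad g k u x
    + (hgg g u x - lapG g u x * gsq g u x) / yreg g u e x + yreg g u e x * gsq g u x
    + trg g k x * gsq g u x - kGG g k u x

/-- The density `K |∇u|` (Gauss curvature of the level sets times the length of the gradient, by the Gauss equation):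
`y scal/2 - Ric(∇u,∇u)/y - (|Hess|² - (Δu)²)/(2y) + (|Hess(∇u)|² - Δu Hess(∇u,∇u))/y³`, `y = |∇u|`. It is zero where
`∇u = 0` (division by zero). -/
noncomputable def kap (g : Tens) (u : E3 → ℝ) (x : E3) : ℝ :=
  yreg g u 0 x * scal g x / 2 - ricGG g u x / yreg g u 0 x - (hessSq g u x - lapG g u x ^ 2) / (2 * yreg g u 0 x)
    + (hgradSq g u x - lapG g u x * hgg g u x) / yreg g u 0 x ^ 3

/-- The tensor `Mh = Hess u + 2 du ⊗ du - |∇u|² g - |∇u| k`, first index raised. -/
noncomputable def Mh (g k : Tens) (u : E3 → ℝ) (a b : Fin 3) (x : E3) : ℝ :=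
  hessM g u a b x + 2 * gradU g u a x * pd b u x - (if a = b then gsq g u x else 0) - yreg g u 0 x * upk g k a b x

/-- `|Mh|²`. -/
noncomputable def MhSq (g k : Tens) (u : E3 → ℝ) (x : E3) : ℝ := ∑ a, ∑ b, Mh g k u a b x * Mh g k u b a x

/-- The trace of `Mh`. -/
noncomputable def MhTr (g k : Tens) (u : E3 → ℝ) (x : E3) : ℝ := ∑ a, Mh g k u a a x

/-- The right side of the master identity without the Gauss curvature, unregularised:
`(|Mh|² - (tr Mh)²)/(2y) + y² tr k + k(∇u,∇u) + (y μ - J(∇u))`. -/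
noncomputable def Imain (g k : Tens) (u : E3 → ℝ) (x : E3) : ℝ :=
  (MhSq g k u x - MhTr g k u x ^ 2) / (2 * yreg g u 0 x) + gsq g u x * trg g k x + kGG g k u x
    + (yreg g u 0 x * energy g k x - JGrad g k u x)

/-- The Riemannian volume density. -/
noncomputable def vol (g : Tens) (x : E3) : ℝ := Real.sqrt (g x).det

end UMB
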