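import Pool.Agent.Lib.UMB.S1.Dens

set_option autoImplicit false

/-!
# UMB, section 1: the unregularised right side, in terms of `Mh` and `kap`
-/

open Filter Topology Set
open scoped ContDiff

namespace UMB

open Pool.Agent.Lib.PenroseSph (E3 Tens pd chr ric scal trg normSqg divg energy momentum)

variable {g : Tens} {U : Set E3} (h : MetOn g U)

include h in
theorem MetOn.inv_mul {x : E3} (hx : x ∈ U) (i k : Fin 3) : ∑ j, (g x)⁻¹ i j * g x j k = if i = k then 1 else 0 := by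
  have h1 : (g x)⁻¹ * g x = 1 := Matrix.nonsing_inv_mul _ (isUnit_iff_ne_zero.2 (h.det_pos hx).ne')
  have := congrFun (congrFun h1 i) k
  rw [Matrix.mul_apply, Matrix.one_apply] at this
  exact this

include h in
theorem MetOn.hess_symm {u : E3 → ℝ} (hu : ContDiffOn ℝ ∞ u U) {x : E3} (hx : x ∈ U) (i j : Fin 3) :
    hess g u i j x = hess g u j i x := by
  have := congrArg (fun f : SmR U => f.1 ⟨x, hx⟩) (h.ga.hs_symm (rest u hu) i j)
  simp only [val_hs] at this
  exact this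

include h in
/-- `|k|²` in terms of the tensor with one index raised. -/
theorem MetOn.normSqg_eq {k : Tens} (hks : ∀ x ∈ U, (k x).IsSymm) {x : E3} (hx : x ∈ U) :
    normSqg g k x = ∑ a, ∑ b, upk g k a b x * upk g k b a x := by
  have hs : ∀ i j, k x i j = k x j i := fun i j => (hks x hx).apply j i
  have hi : ∀ i j, (g x)⁻¹ i j = (g x)⁻¹ j i := h.inv_symm hx
  unfold normSqg upk
  simp only [Fin.sum_univ_three, hs 1 0, hs 2 0, hs 2 1, hi 1 0, hi 2 0, hi 2 1]
  ring

include h in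
theorem MetOn.hgg_eq {u : E3 → ℝ} {x : E3} (hx : x ∈ U) :
    hgg g u x = ∑ a, ∑ b, pd a u x * hessM g u a b x * gradU g u b x := by
  have hi : ∀ i j, (g x)⁻¹ i j = (g x)⁻¹ j i := h.inv_symm hx
  unfold hgg hgrad hessM gradU
  simp only [Fin.sum_univ_three, hi 1 0, hi 2 0, hi 2 1]
  ring

/-- Matrix algebra behind the expansion. -/
theorem mh_alg (D K : Fin 3 → Fin 3 → ℝ) (u p : Fin 3 → ℝ) (f y : ℝ) (hf : f = ∑ a, p a * u a) :
    ∑ a, ∑ b, (D a b + 2 * u a * p b - (if a = b then f else 0) - y * K a b)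
        * (D b a + 2 * u b * p a - (if b = a then f else 0) - y * K b a)
      - (∑ a, (D a a + 2 * u a * p a - (if a = a then f else 0) - y * K a a)) ^ 2
    = ∑ a, ∑ b, D a b * D b a - (∑ a, D a a) ^ 2 + 2 * f ^ 2 + y ^ 2 * (∑ a, ∑ b, K a b * K b a - (∑ a, K a a) ^ 2)
      + 4 * (∑ a, ∑ b, p a * D a b * u b) - 2 * y * (∑ a, ∑ b, K a b * D b a) + 2 * y * (∑ a, K a a) * (∑ a, D a a)
      - 4 * y * (∑ a, ∑ b, p a * K a b * u b) := by
  rw [hf]
  simp only [Fin.sum_univ_three]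
  simp
  ring

include h in
theorem MetOn.trg_eq {k : Tens} (hks : ∀ x ∈ U, (k x).IsSymm) {x : E3} (hx : x ∈ U) :
    trg g k x = ∑ a, upk g k a a x := by
  have hs : ∀ i j, k x i j = k x j i := fun i j => (hks x hx).apply j i
  unfold trg upk
  refine Finset.sum_congr rfl fun a _ => Finset.sum_congr rfl fun c _ => ?_
  rw [hs]

include h in
/-- Expansion of `|Mh|² - (tr Mh)²`. -/
theorem MetOn.Mh_expand {u : E3 → ℝ} {k : Tens} (hks : ∀ x ∈ U, (k x).IsSymm) {x : E3}
    (hx : x ∈ U) : MhSq g k u x - MhTr g k u x ^ 2 =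
      hessSq g u x - lapG g u x ^ 2 + 2 * gsq g u x ^ 2
        + yreg g u 0 x ^ 2 * (normSqg g k x - trg g k x ^ 2) + 4 * hgg g u x - 2 * yreg g u 0 x * kHess g k u x
        + 2 * yreg g u 0 x * trg g k x * lapG g u x - 4 * yreg g u 0 x * kGG g k u x := by
  have key := mh_alg (fun a b => hessM g u a b x) (fun a b => upk g k a b x) (fun a => gradU g u a x)
    (fun a => pd a u x) (gsq g u x) (yreg g u 0 x) rfl
  rw [h.normSqg_eq hks hx, h.hgg_eq hx, h.trg_eq hks hx]
  unfold MhSq MhTr Mh hessSq lapG kHess kGG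
  exact key

theorem ysq_zero {g : Tens} {u : E3 → ℝ} {x : E3} (h0 : 0 ≤ gsq g u x) : yreg g u 0 x ^ 2 = gsq g u x := by
  unfold yreg
  rw [add_zero, Real.sq_sqrt h0]

include h in
/-- The unregularised right side. -/
theorem MetOn.RH_zero {u : E3 → ℝ} {k : Tens} (hks : ∀ x ∈ U, (k x).IsSymm) {x : E3}
    (hx : x ∈ U) (hf : 0 < gsq g u x) : RHe g k u 0 x = Imain g k u x - kap g u x := by
  have hy : 0 < yreg g u 0 x := by
    unfold yreg; rw [add_zero]; exact Real.sqrt_pos.2 hf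
  have hy2 : yreg g u 0 x ^ 2 = gsq g u x := ysq_zero hf.le
  unfold RHe Imain kap energy
  rw [h.Mh_expand hks hx, ← hy2]
  field_simp
  ring

end UMB
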