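import Pool.Agent.Lib.UMB.S1.Met

set_option autoImplicit false

/-!
# UMB, section 1: evaluation of the algebraic expressions at a point
-/

open Filter Topology Set
open scoped ContDiff

namespace UMB

open Pool.Agent.Lib.PenroseSph (E3 Tens pd chr ric scal trg normSqg divg energy momentum)

section vals
variable {U : Set E3}

theorem val_sum (f : Fin 3 → SmR U) (x : U) : (∑ i, f i).1 x = ∑ i, (f i).1 x := by
  simp only [AddSubmonoidClass.coe_finsetSum, Finset.sum_apply]

theorem val_mul (f g : SmR U) (x : U) : (f * g).1 x = f.1 x * g.1 x := rfl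

theorem val_add (f g : SmR U) (x : U) : (f + g).1 x = f.1 x + g.1 x := rfl

theorem val_sub (f g : SmR U) (x : U) : (f - g).1 x = f.1 x - g.1 x := rfl

theorem val_neg (f : SmR U) (x : U) : (-f).1 x = -f.1 x := rfl

theorem val_pow (f : SmR U) (n : ℕ) (x : U) : (f ^ n).1 x = f.1 x ^ n := rfl

theorem val_smul (c : ℝ) (f : SmR U) (x : U) : (c • f).1 x = c * f.1 x := rfl

theorem val_one (x : U) : (1 : SmR U).1 x = 1 := rfl

end vals

variable {g : Tens} {U : Set E3} (h : MetOn g U)

theorem val_D (k : Fin 3) (f : SmR U) (F : E3 → ℝ) (hF : ∀ x : U, f.1 x = F x) (x : U) :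
    (h.ga.D k f).1 x = pd k F x := Dk_apply h.isOpen k f F hF x

theorem val_c1 (l i j : Fin 3) (x : U) : (h.ga.c1 l i j).1 x =
    (1 / 2) * (pd i (fun y => g y j l) x + pd j (fun y => g y i l) x - pd l (fun y => g y i j) x) := by
  unfold GA.c1
  rw [val_smul, val_sub, val_add, val_D h i _ (fun y => g y j l) (fun y => rfl), val_D h j _ (fun y => g y i l) (fun y => rfl),
    val_D h l _ (fun y => g y i j) (fun y => rfl)]

theorem val_Ga (k i j : Fin 3) (x : U) : (h.ga.Ga k i j).1 x = chr g k i j x := by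
  unfold GA.Ga chr
  rw [val_sum, Finset.mul_sum]
  refine Finset.sum_congr rfl fun l _ => ?_
  rw [val_mul, val_c1]
  show (g x)⁻¹ k l * _ = _
  ring

theorem val_ric (i j : Fin 3) (x : U) : (h.ga.ric i j).1 x = ric g i j x := by
  unfold GA.ric ric
  simp only [val_sum, val_add, val_sub, val_mul, val_Ga]
  simp only [val_D h _ (h.ga.Ga _ _ _) (chr g _ _ _) (val_Ga h _ _ _)]

theorem val_scal (x : U) : h.ga.scal.1 x = scal g x := by
  unfold GA.scal scal
  simp only [val_sum, val_mul, val_ric]
  rfl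

variable {u : E3 → ℝ} (hu : ContDiffOn ℝ ∞ u U)

theorem val_Du (j : Fin 3) (x : U) : (h.ga.D j (rest u hu)).1 x = pd j u x := val_D h j _ u (fun _ => rfl) x

theorem val_gr (a : Fin 3) (x : U) : (h.ga.gr (rest u hu) a).1 x = gradU g u a x := by
  unfold GA.gr gradU
  simp only [val_sum, val_mul, val_Du]
  rfl

theorem val_hs (i j : Fin 3) (x : U) : (h.ga.hs (rest u hu) i j).1 x = hess g u i j x := by
  unfold GA.hs hess
  simp only [val_sub, val_sum, val_mul, val_Ga, val_Du]
  rw [val_D h i (h.ga.D j (rest u hu)) (pd j u) (val_Du h hu j)]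

theorem val_hm (a i : Fin 3) (x : U) : (h.ga.hm (rest u hu) a i).1 x = hessM g u a i x := by
  unfold GA.hm hessM
  simp only [val_sum, val_mul, val_hs]
  rfl

theorem val_lap (x : U) : (h.ga.lap (rest u hu)).1 x = lapG g u x := by
  unfold GA.lap lapG
  simp only [val_sum, val_hm]

theorem val_fsq (x : U) : (h.ga.fsq (rest u hu)).1 x = gsq g u x := by
  unfold GA.fsq gsq
  simp only [val_sum, val_mul, val_Du, val_gr]

theorem val_hg (i : Fin 3) (x : U) : (h.ga.hg (rest u hu) i).1 x = hgrad g u i x := by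
  unfold GA.hg hgrad
  simp only [val_sum, val_mul, val_hs, val_gr]

theorem val_hgq (x : U) : (h.ga.hgq (rest u hu)).1 x = hgradSq g u x := by
  unfold GA.hgq hgradSq
  simp only [val_sum, val_mul, val_hg]
  rfl

theorem val_hgg (x : U) : (h.ga.hgg (rest u hu)).1 x = hgg g u x := by
  unfold GA.hgg hgg
  simp only [val_sum, val_mul, val_hg, val_gr]

theorem val_hsq (x : U) : (h.ga.hsq (rest u hu)).1 x = hessSq g u x := by
  unfold GA.hsq hessSq
  simp only [val_sum, val_mul, val_hm]

theorem val_ricg (x : U) : (h.ga.ricg (rest u hu)).1 x = ricGG g u x := by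
  unfold GA.ricg ricGG
  simp only [val_sum, val_mul, val_ric, val_gr]

theorem val_VV (a : Fin 3) (x : U) : (h.ga.VV (rest u hu) a).1 x =
    ∑ b, hessM g u a b x * gradU g u b x - lapG g u x * gradU g u a x := by
  unfold GA.VV
  simp only [val_sub, val_sum, val_mul, val_hm, val_gr, val_lap]

variable {k : Tens} (hk : ∀ i j, ContDiffOn ℝ ∞ (fun x => k x i j) U)

theorem val_up (a b : Fin 3) (x : U) : (h.ga.up (fun i j => rest (fun y => k y i j) (hk i j)) a b).1 x = upk g k a b x := by
  unfold GA.up upk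
  simp only [val_sum, val_mul]
  rfl

theorem val_tr (x : U) : (h.ga.tr (fun i j => rest (fun y => k y i j) (hk i j))).1 x = trg g k x := by
  unfold GA.tr
  simp only [val_sum, val_up]
  unfold upk trg
  rw [Finset.sum_comm]
  exact Finset.sum_congr rfl fun a _ => Finset.sum_congr rfl fun c _ => by rw [h.inv_symm x.2 c a]

theorem GA.dvt_mom {R : Type*} [CommRing R] [Algebra ℝ R] (S : GA R) (k : Fin 3 → Fin 3 → R) (f : R) (j : Fin 3) :
    S.dvt (fun a b => k a b - f * S.g a b) j = S.dvt k j - S.D j f := by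
  have h1 : S.dvt (fun a b => k a b - f * S.g a b) j = S.dvt k j - ∑ i, (∑ m, S.G i m * S.g m j) * S.D i f := by
    unfold GA.dvt
    simp only [map_sub, Derivation.leibniz, smul_eq_mul, S.Dg]
    simp only [Fin.sum_univ_three, S.gsymm 1 0, S.gsymm 2 0, S.gsymm 2 1, S.gsymm j 0, S.gsymm j 1, S.gsymm j 2]
    ring
  rw [h1]
  simp only [S.inv']
  simp

theorem val_dvt (q : Tens) (hq : ∀ i j, ContDiffOn ℝ ∞ (fun x => q x i j) U) (j : Fin 3) (x : U) :
    (h.ga.dvt (fun a b => rest (fun y => q y a b) (hq a b)) j).1 x = divg g q j x := by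
  unfold GA.dvt divg
  simp only [val_sum, val_mul, val_sub, val_Ga]
  refine Finset.sum_congr rfl fun a _ => Finset.sum_congr rfl fun c _ => ?_
  rw [val_D h a _ (fun y => q y c j) (fun _ => rfl)]
  rfl

include h hk in
theorem MetOn.trg_smooth : ContDiffOn ℝ ∞ (trg g k) U := by
  have h1 := h.inv_smooth
  unfold trg
  exact ContDiffOn.sum fun i _ => ContDiffOn.sum fun j _ => (h1 i j).mul (hk i j)

theorem val_Jg (x : U) : (h.ga.Jg (fun i j => rest (fun y => k y i j) (hk i j)) (rest u hu)).1 x = JGrad g k u x := by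
  unfold GA.Jg JGrad
  simp only [val_sum, val_mul, val_gr]
  refine Finset.sum_congr rfl fun j _ => ?_
  congr 1
  rw [← GA.dvt_mom]
  have hq : ∀ i j, ContDiffOn ℝ ∞ (fun x => (k x - trg g k x • g x) i j) U := by
    intro i j
    simp only [Matrix.sub_apply, Matrix.smul_apply, smul_eq_mul]
    exact (hk i j).sub ((h.trg_smooth hk).mul (h.smooth i j))
  have e : (fun a b => rest (fun y => k y a b) (hk a b) - h.ga.tr (fun i j => rest (fun y => k y i j) (hk i j)) * h.ga.g a b)
      = fun a b => rest (fun y => (k y - trg g k y • g y) a b) (hq a b) := by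
    funext a b
    apply Subtype.ext
    funext y
    rw [val_sub, val_mul, val_tr]
    rfl
  rw [e, val_dvt]
  rfl

theorem val_kh (x : U) : (h.ga.kh (fun i j => rest (fun y => k y i j) (hk i j)) (rest u hu)).1 x = kHess g k u x := by
  unfold GA.kh kHess
  simp only [val_sum, val_mul, val_up, val_hm]

theorem val_kgg (x : U) : (h.ga.kgg (fun i j => rest (fun y => k y i j) (hk i j)) (rest u hu)).1 x = kGG g k u x := by
  unfold GA.kgg kGG
  simp only [val_sum, val_mul, val_up, val_Du, val_gr]

include h in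
theorem MetOn.gsq_nonneg {x : E3} (hx : x ∈ U) : 0 ≤ gsq g u x := by
  have hp := (h.posDef hx).inv
  have h2 := hp.posSemidef.dotProduct_mulVec_nonneg (fun i => pd i u x)
  have e : star (fun i => pd i u x) ⬝ᵥ (g x)⁻¹.mulVec (fun i => pd i u x) = gsq g u x := by
    unfold gsq gradU
    simp only [dotProduct, Matrix.mulVec, star_trivial, Finset.mul_sum]
  rw [e] at h2
  exact h2

include h hu in
theorem MetOn.gsq_smooth : ContDiffOn ℝ ∞ (gsq g u) U := by
  refine (smr_smooth (h.ga.fsq (rest u hu))).congr fun x hx => ?_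
  rw [extU_of _ hx]
  exact (val_fsq h hu ⟨x, hx⟩).symm

include h hu in
theorem MetOn.yreg_smooth {e : ℝ} (he : 0 < e) : ContDiffOn ℝ ∞ (yreg g u e) U := by
  unfold yreg
  refine ContDiffOn.sqrt ((h.gsq_smooth hu).add contDiffOn_const) fun x hx => ?_
  have := h.gsq_nonneg (u := u) hx
  positivity

include h in
theorem MetOn.yreg_pos {e : ℝ} (he : 0 < e) {x : E3} (hx : x ∈ U) : 0 < yreg g u e x := by
  have := h.gsq_nonneg (u := u) hx
  unfold yreg
  positivity

theorem val_ZZ (a : Fin 3) (x : U) : (h.ga.ZZ (fun i j => rest (fun y => k y i j) (hk i j)) (rest u hu) a).1 x =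
    trg g k x * gradU g u a x - ∑ b, upk g k a b x * gradU g u b x := by
  unfold GA.ZZ
  rw [val_sub, val_mul, val_sum, val_tr, val_gr]
  simp only [val_mul, val_up, val_gr]

theorem val_YY {e : ℝ} (s r : SmR U) (hs : ∀ x : U, s.1 x = yreg g u e x) (hr : ∀ x : U, r.1 x = (yreg g u e x)⁻¹)
    (a : Fin 3) (x : U) : (h.ga.YY (fun i j => rest (fun y => k y i j) (hk i j)) (rest u hu) s r a).1 x =
      Yvec g k u e a x := by
  unfold GA.YY Yvec
  rw [val_add, val_add, val_mul, val_mul, val_VV, val_gr, val_ZZ, hs, hr]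
  ring

theorem val_RH {e : ℝ} (s r : SmR U) (hs : ∀ x : U, s.1 x = yreg g u e x) (hr : ∀ x : U, r.1 x = (yreg g u e x)⁻¹)
    (x : U) : (h.ga.RH (fun i j => rest (fun y => k y i j) (hk i j)) (rest u hu) s r).1 x = RHe g k u e x := by
  unfold GA.RH RHe
  simp only [val_sub, val_add, val_mul, val_pow, val_hsq, val_lap, val_ricg, val_hgq, val_hgg, val_tr, val_kh, val_Jg,
    val_fsq, val_kgg, hs, hr]
  ring

theorem val_dv (X : Fin 3 → SmR U) (F : Fin 3 → E3 → ℝ) (hX : ∀ (a : Fin 3) (x : U), (X a).1 x = F a x) (x : U) :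
    (h.ga.dv X).1 x = ∑ a, (pd a (F a) x + ∑ c, chr g c c a x * F a x) := by
  unfold GA.dv
  simp only [val_sum, val_add, val_mul, val_Ga, hX]
  exact Finset.sum_congr rfl fun a _ => by rw [val_D h a (X a) (F a) (hX a)]

include h hu hk in
/-- The pointwise regularised master identity. -/
theorem MetOn.master {e : ℝ} (he : 0 < e) {x : E3} (hx : x ∈ U) :
    ∑ a, (pd a (fun y => Real.exp (u y) * Yvec g k u e a y) x + ∑ c, chr g c c a x * (Real.exp (u x) * Yvec g k u e a x))
      = Real.exp (u x) * RHe g k u e x := by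
  have hE : ContDiffOn ℝ ∞ (fun y => Real.exp (u y)) U := hu.exp
  have hs := h.yreg_smooth hu he
  have hr : ContDiffOn ℝ ∞ (fun y => (yreg g u e y)⁻¹) U := hs.inv fun y hy => (h.yreg_pos he hy).ne'
  have key := h.ga.master (fun i j => rest (fun y => k y i j) (hk i j)) (rest u hu) (rest _ hs) (rest _ hr)
    (rest (fun _ => e) contDiffOn_const) (rest _ hE) (by
      intro i
      apply Subtype.ext
      funext y
      rw [val_D h i _ (fun _ => e) (fun _ => rfl)]
      show fderiv ℝ (fun _ => e) (y : E3) _ = 0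
      simp) (by
      apply Subtype.ext
      funext y
      rw [val_mul, val_add, val_fsq h hu]
      show yreg g u e y * yreg g u e y = gsq g u y + e
      have h0 := h.gsq_nonneg (u := u) y.2
      unfold yreg
      rw [Real.mul_self_sqrt (by positivity)]) (by
      apply Subtype.ext
      funext y
      rw [val_mul]
      show (yreg g u e y)⁻¹ * yreg g u e y = 1
      exact inv_mul_cancel₀ (h.yreg_pos he y.2).ne') (by
      intro i
      apply Subtype.ext
      funext y
      rw [val_D h i _ (fun y => Real.exp (u y)) (fun _ => rfl), val_mul, val_Du]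
      show fderiv ℝ (fun y => Real.exp (u y)) (y : E3) _ = Real.exp (u y) * fderiv ℝ u y _
      have hd : DifferentiableAt ℝ u (y : E3) := (hu.contDiffAt (h.isOpen.mem_nhds y.2)).differentiableAt (by simp)
      rw [hd.hasFDerivAt.exp.fderiv]
      rfl)
  have h1 := congrArg (fun f : SmR U => f.1 ⟨x, hx⟩) key
  simp only [val_mul] at h1
  rw [val_RH h hu hk (e := e) _ _ (fun _ => rfl) (fun _ => rfl),
    val_dv h _ (fun a y => Real.exp (u y) * Yvec g k u e a y) (fun a y => by
      rw [val_mul, val_YY h hu hk (e := e) _ _ (fun _ => rfl) (fun _ => rfl)]; rfl)] at h1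
  exact h1

end UMB
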